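import Pool.Agent.Helper88.D4.Stmts3

/-!
# Project D4, S_RES: the Cox algebra in the field `K(t 1, …, t p)`

`KK K p` is the field `K(t 1, …, t p)`, `tt i` the variable `t i`, `mon n` the monomial
`∏ i, t i ^ n i` (`n i` integers), `sec n x` the element `x * mon n`, and `Cox R u` the algebra
`∑ n, Sd R u n * mon n`.
-/

set_option autoImplicit false

namespace Pool.Agent.Helper17.RES

open Module Pool.Agent.Helper37.SD Pool.Agent.Helper20.TS Pool.Agent.Helper88.D4

/-- The field `K(t 1, …, t p)`. -/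
abbrev KK (K : Type) [Field K] (p : ℕ) : Type := FractionRing (MvPolynomial (Fin p) K)

section Mon

variable {K : Type} [Field K] {p : ℕ}

/-- The variable `t i`. -/
noncomputable def tt (K : Type) [Field K] {p : ℕ} (i : Fin p) : KK K p :=
  algebraMap (MvPolynomial (Fin p) K) (KK K p) (MvPolynomial.X i)

/-- The monomial `∏ i, t i ^ n i`. -/
noncomputable def mon (K : Type) [Field K] {p : ℕ} (n : Fin p → ℤ) : KK K p :=
  ∏ i, tt K i ^ n i

/-- `x * ∏ i, t i ^ n i` -/
noncomputable def sec (n : Fin p → ℤ) (x : K) : KK K p := algebraMap K (KK K p) x * mon K n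

theorem tt_ne_zero (i : Fin p) : tt K i ≠ 0 := by
  unfold tt
  intro h
  rw [map_eq_zero_iff _ (IsFractionRing.injective (MvPolynomial (Fin p) K) (KK K p))] at h
  exact MvPolynomial.X_ne_zero i h

theorem mon_ne_zero (n : Fin p → ℤ) : mon K n ≠ 0 :=
  Finset.prod_ne_zero_iff.mpr fun i _ => zpow_ne_zero _ (tt_ne_zero i)

theorem mon_zero : mon K (0 : Fin p → ℤ) = 1 := by
  unfold mon
  simp

theorem mon_add (m n : Fin p → ℤ) : mon K (m + n) = mon K m * mon K n := by
  unfold mon
  rw [← Finset.prod_mul_distrib]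
  exact Finset.prod_congr rfl fun i _ => zpow_add₀ (tt_ne_zero i) _ _

theorem mon_single (i : Fin p) (k : ℤ) : mon K (Pi.single i k) = tt K i ^ k := by
  classical
  unfold mon
  rw [Finset.prod_eq_single i]
  · rw [Pi.single_eq_same]
  · intro j _ hj
    rw [Pi.single_eq_of_ne hj, zpow_zero]
  · intro h
    exact absurd (Finset.mem_univ i) h

theorem sec_mul (m n : Fin p → ℤ) (x y : K) :
    sec m x * sec n y = sec (m + n) (x * y) := by
  unfold sec
  rw [mon_add, map_mul]
  ring

theorem sec_add (n : Fin p → ℤ) (x y : K) : sec n (x + y) = sec n x + sec n y := by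
  unfold sec
  rw [map_add, add_mul]

theorem sec_zero (n : Fin p → ℤ) : sec n (0 : K) = 0 := by
  unfold sec
  rw [map_zero, zero_mul]

theorem sec_ne_zero {n : Fin p → ℤ} {x : K} (hx : x ≠ 0) : sec n x ≠ 0 :=
  mul_ne_zero ((map_ne_zero _).mpr hx) (mon_ne_zero n)

end Mon

section Cox

variable {K : Type} [Field K] [Algebra ℂ K] {p : ℕ}

theorem algebraMap_eq (z : ℂ) : algebraMap ℂ (KK K p) z =
    algebraMap K (KK K p) (algebraMap ℂ K z) := by
  rw [← IsScalarTower.algebraMap_apply ℂ K (KK K p)]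

theorem sec_smul (n : Fin p → ℤ) (z : ℂ) (x : K) : sec n (z • x) = z • sec n x := by
  unfold sec
  rw [Algebra.smul_def, Algebra.smul_def, map_mul, algebraMap_eq, mul_assoc]

theorem sd_mul {R : Subalgebra ℂ K} {u : Fin p → RVal K} {m n : Fin p → ℤ} {x y : K}
    (hx : x ∈ Sd R u m) (hy : y ∈ Sd R u n) : x * y ∈ Sd R u (m + n) := by
  refine ⟨fun i => ?_, fun w hw hd => ?_⟩
  · have h := (u i).ge_mul (hx.1 i) (hy.1 i)
    have e : -(((m + n) i : ℤ) : ℝ) = -(m i : ℝ) + -(n i : ℝ) := by
      rw [Pi.add_apply]; push_cast; ring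
    rw [e]
    exact h
  · have h := w.ge_mul (hx.2 w hw hd) (hy.2 w hw hd)
    rwa [add_zero] at h

theorem sd_const {R : Subalgebra ℂ K} {u : Fin p → RVal K} (z : ℂ) :
    algebraMap ℂ K z ∈ Sd R u 0 := by
  have h : ∀ w : RVal K, w.Ge 0 (algebraMap ℂ K z) := by
    intro w
    by_cases hz : z = 0
    · exact Or.inl (by rw [hz, map_zero])
    · exact Or.inr (w.map_const z hz).ge
  refine ⟨fun i => ?_, fun w _ _ => h w⟩
  have e : -(((0 : Fin p → ℤ) i : ℤ) : ℝ) = 0 := by simp
  rw [e]
  exact h (u i)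

/-- The Cox algebra as a subspace. -/
noncomputable def CoxS (R : Subalgebra ℂ K) (u : Fin p → RVal K) : Submodule ℂ (KK K p) :=
  Submodule.span ℂ {z | ∃ (n : Fin p → ℤ) (x : K), x ∈ Sd R u n ∧ z = sec n x}

/-- The Cox algebra `∑ n, Sd R u n * ∏ i, t i ^ n i`. -/
noncomputable def Cox (R : Subalgebra ℂ K) (u : Fin p → RVal K) : Subalgebra ℂ (KK K p) where
  carrier := CoxS R u
  add_mem' := fun hx hy => Submodule.add_mem _ hx hy
  mul_mem' := fun {a b} ha hb => by
    change a ∈ CoxS R u at ha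
    change b ∈ CoxS R u at hb
    change a * b ∈ CoxS R u
    unfold CoxS at ha hb ⊢
    induction ha using Submodule.span_induction with
    | mem a ha =>
      obtain ⟨m, x, hx, rfl⟩ := ha
      induction hb using Submodule.span_induction with
      | mem b hb =>
        obtain ⟨n, y, hy, rfl⟩ := hb
        rw [sec_mul]
        exact Submodule.subset_span ⟨_, _, sd_mul hx hy, rfl⟩
      | zero => rw [mul_zero]; exact Submodule.zero_mem _
      | add b b' _ _ h h' => rw [mul_add]; exact Submodule.add_mem _ h h'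
      | smul z b _ h => rw [mul_smul_comm]; exact Submodule.smul_mem _ z h
    | zero => rw [zero_mul]; exact Submodule.zero_mem _
    | add a a' _ _ h h' => rw [add_mul]; exact Submodule.add_mem _ h h'
    | smul z a _ h => rw [smul_mul_assoc]; exact Submodule.smul_mem _ z h
  algebraMap_mem' := fun z => by
    change algebraMap ℂ (KK K p) z ∈ CoxS R u
    have e : algebraMap ℂ (KK K p) z = sec (0 : Fin p → ℤ) (algebraMap ℂ K z) := by
      unfold sec
      rw [mon_zero, mul_one, algebraMap_eq]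
    rw [e]
    exact Submodule.subset_span ⟨_, _, sd_const z, rfl⟩

theorem mem_cox {R : Subalgebra ℂ K} {u : Fin p → RVal K} {z : KK K p} :
    z ∈ Cox R u ↔ z ∈ CoxS R u := Iff.rfl

theorem sec_mem {R : Subalgebra ℂ K} {u : Fin p → RVal K} {n : Fin p → ℤ} {x : K}
    (hx : x ∈ Sd R u n) : sec n x ∈ Cox R u := Submodule.subset_span ⟨_, _, hx, rfl⟩

/-- `w'` is the Gauss valuation of `K(t 1, …, t p)` which extends `w` and has the value `ρ i` at
`t i`. -/
def IsGauss (w : RVal K) (ρ : Fin p → ℝ) (w' : RVal (KK K p)) : Prop :=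
  ∀ (S : Finset (Fin p → ℤ)) (x : (Fin p → ℤ) → K) (c : ℝ),
    w'.Ge c (∑ n ∈ S, sec n (x n)) ↔ ∀ n ∈ S, w.Ge (c - ∑ i, ρ i * n i) (x n)

open Classical in
/-- The value of `t i` for the Gauss valuation over `w`: `1` if `w = u i` and `0` otherwise. -/
noncomputable def rho (u : Fin p → RVal K) (w : RVal K) (i : Fin p) : ℝ :=
  if Dist w (u i) then 0 else 1

end Cox

end Pool.Agent.Helper17.RES
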